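import Mathlib
import Pool.Agent.MP_098a03_an.TwoPoint

/-!
The exponential series of a typical compact subset of the unit interval does not have
Hausdorff dimension zero.
-/

namespace Pool.Agent.Results.MP_098a03_an.ExpDimPos

open Filter Topology TopologicalSpace
open scoped Pointwise Nat ENNReal NNReal

/-- The `n`-th Minkowski sum `∑_{i = 0}^{n} (1 / i!) • A^{(i)}`, where `A ^ i` is the Minkowski
product of `i` copies of `A` (with `A ^ 0 = {1}`) and the sum is the Minkowski sum of sets. -/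
def expSum (A : Set ℝ) (n : ℕ) : Set ℝ :=
  ∑ i ∈ Finset.range (n + 1), ((i ! : ℝ)⁻¹) • A ^ i

/-- The set of all sums of the series. -/
def expSet (A : Set ℝ) : Set ℝ :=
  {s | ∃ a : ℕ → ℝ, (∀ i, a i ∈ A ^ i) ∧ HasSum (fun i => a i / (i ! : ℝ)) s}

lemma pow_mem_unit {A : Set ℝ} (hA : A ⊆ Set.Icc 0 1) (i : ℕ) : A ^ i ⊆ Set.Icc 0 1 := by
  induction i with
  | zero =>
    intro z hz
    rw [pow_zero, Set.mem_one] at hz
    rw [hz]; exact ⟨zero_le_one, le_rfl⟩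
  | succ i ih =>
    intro z hz
    rw [pow_succ] at hz
    obtain ⟨u, hu, v, hv, rfl⟩ := hz
    exact ⟨mul_nonneg (ih hu).1 (hA hv).1, mul_le_one₀ (ih hu).2 (hA hv).1 (hA hv).2⟩

lemma summable_inv_fac : Summable fun i : ℕ => 1 / (i ! : ℝ) := by
  simpa using Real.summable_pow_div_factorial 1

lemma summable_of_mem {A : Set ℝ} (hA : A ⊆ Set.Icc 0 1) {a : ℕ → ℝ} (ha : ∀ i, a i ∈ A ^ i) :
    Summable fun i => a i / (i ! : ℝ) :=
  Summable.of_nonneg_of_le
    (fun i => div_nonneg (pow_mem_unit hA i (ha i)).1 (by positivity))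
    (fun i => div_le_div_of_nonneg_right (pow_mem_unit hA i (ha i)).2 (by positivity))
    summable_inv_fac

lemma dist_trunc {A : Set ℝ} (hA : A ⊆ Set.Icc 0 1) {a : ℕ → ℝ} (ha : ∀ i, a i ∈ A ^ i) (n : ℕ) :
    dist (∑ i ∈ Finset.range n, a i / (i ! : ℝ)) (∑' i, a i / (i ! : ℝ)) ≤
      ∑' i, 1 / ((i + n)! : ℝ) := by
  rw [← (summable_of_mem hA ha).sum_add_tsum_nat_add n, dist_eq_norm, sub_add_cancel_left,
    norm_neg]
  apply tsum_of_norm_bounded ((summable_nat_add_iff n).2 summable_inv_fac).hasSum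
  intro i
  have h := pow_mem_unit hA _ (ha (i + n))
  rw [Real.norm_eq_abs, abs_of_nonneg (div_nonneg h.1 (by positivity))]
  exact div_le_div_of_nonneg_right h.2 (by positivity)

lemma mem_expSum {A : Set ℝ} (hne : A.Nonempty) (n : ℕ) (s : ℝ) :
    s ∈ expSum A n ↔ ∃ a : ℕ → ℝ, (∀ i, a i ∈ A ^ i) ∧
      ∑ i ∈ Finset.range (n + 1), a i / (i ! : ℝ) = s := by
  classical
  obtain ⟨y, hy⟩ := hne
  unfold expSum
  rw [Set.mem_finsetSum]
  constructor
  · rintro ⟨g, hg, rfl⟩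
    have hg' : ∀ i, ∃ c ∈ A ^ i, i ∈ Finset.range (n + 1) → c / (i ! : ℝ) = g i := by
      intro i
      by_cases hi : i ∈ Finset.range (n + 1)
      · obtain ⟨c, hc, he⟩ := hg hi
        refine ⟨c, hc, fun _ => ?_⟩
        rw [← he]; simp only [smul_eq_mul]; ring
      · exact ⟨y ^ i, Set.pow_mem_pow hy, fun h => absurd h hi⟩
    choose c hc1 hc2 using hg'
    exact ⟨c, hc1, Finset.sum_congr rfl hc2⟩
  · rintro ⟨a, ha, rfl⟩
    refine ⟨fun i => a i / (i ! : ℝ), fun {i} _ => ⟨a i, ha i, ?_⟩, rfl⟩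
    simp only [smul_eq_mul]; ring

lemma tendsto_expSet {A : Set ℝ} (hA : A ⊆ Set.Icc 0 1) (hne : A.Nonempty) :
    Tendsto (fun n => Metric.hausdorffEDist (expSum A n) (expSet A)) atTop (𝓝 0) := by
  have h1 : Tendsto (fun n : ℕ => ∑' i, 1 / ((i + n)! : ℝ)) atTop (𝓝 0) :=
    tendsto_sum_nat_add (fun i : ℕ => 1 / (i ! : ℝ))
  have h2 : Tendsto (fun n : ℕ => ENNReal.ofReal (∑' i, 1 / ((i + (n + 1))! : ℝ))) atTop
      (𝓝 0) := by
    have := ENNReal.tendsto_ofReal (h1.comp (tendsto_add_atTop_nat 1))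
    simpa using this
  refine tendsto_of_tendsto_of_tendsto_of_le_of_le tendsto_const_nhds h2 (fun _ => zero_le)
    (fun n => ?_)
  apply Metric.hausdorffEDist_le_of_mem_edist
  · intro s hs
    obtain ⟨a, ha, rfl⟩ := (mem_expSum hne n s).1 hs
    refine ⟨_, ⟨a, ha, (summable_of_mem hA ha).hasSum⟩, ?_⟩
    rw [edist_dist]
    exact ENNReal.ofReal_le_ofReal (dist_trunc hA ha (n + 1))
  · rintro s ⟨a, ha, hs⟩
    refine ⟨_, (mem_expSum hne n _).2 ⟨a, ha, rfl⟩, ?_⟩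
    rw [edist_comm, edist_dist, ← hs.tsum_eq]
    exact ENNReal.ofReal_le_ofReal (dist_trunc hA ha (n + 1))

lemma expSet_subset {A : Set ℝ} (hA : A ⊆ Set.Icc 0 1) :
    expSet A ⊆ Set.Icc 0 (∑' i : ℕ, 1 / (i ! : ℝ)) := by
  rintro s ⟨a, ha, hs⟩
  refine ⟨hs.nonneg (fun i => div_nonneg (pow_mem_unit hA i (ha i)).1 (by positivity)), ?_⟩
  exact hasSum_le (fun i => div_le_div_of_nonneg_right (pow_mem_unit hA i (ha i)).2
    (by positivity)) hs summable_inv_fac.hasSum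

lemma dim_expSet {A : Set ℝ} (hA : A ⊆ Set.Icc 0 1) {x y : ℝ} (hx : x ∈ A) (hy : y ∈ A)
    (hx0 : 0 < x) (hxy : x < y) : ((1 / 40 : ℝ≥0) : ℝ≥0∞) ≤ dimH (expSet A) := by
  refine le_trans (Pool.Agent.MP_098a03_an.two_point_dim x y hx0 hxy (hA hy).2) (dimH_mono ?_)
  rintro s ⟨j, hj, hs⟩
  refine ⟨fun i => x ^ (j i) * y ^ (i - j i), fun i => ?_, hs⟩
  have : A ^ i = A ^ (j i) * A ^ (i - j i) := by
    rw [← pow_add]; congr 1; have := hj i; omega
  rw [this]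
  exact Set.mul_mem_mul (Set.pow_mem_pow hx) (Set.pow_mem_pow hy)

/-- The set of nonempty compact `K ⊆ [0,1]` for which the Hausdorff-metric limit `exp(K)` of the
Minkowski sums has positive Hausdorff dimension is not meagre. -/
theorem result :
    ¬ IsMeagre {K : NonemptyCompacts (Set.Icc (0 : ℝ) 1) | ∃ L : NonemptyCompacts ℝ,
      Tendsto (fun n => Metric.hausdorffEDist
        (expSum (Subtype.val '' (K : Set (Set.Icc (0 : ℝ) 1))) n) (L : Set ℝ)) atTop (𝓝 0) ∧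
      0 < dimH (L : Set ℝ)} := by
  let p : Set.Icc (0 : ℝ) 1 := ⟨1 / 2, by norm_num, by norm_num⟩
  let q : Set.Icc (0 : ℝ) 1 := ⟨1, by norm_num, by norm_num⟩
  let K0 : NonemptyCompacts (Set.Icc (0 : ℝ) 1) :=
    ⟨⟨{p, q}, (Set.toFinite _).isCompact⟩, ⟨p, by simp⟩⟩
  intro hM
  refine not_isMeagre_of_isOpen (Metric.isOpen_ball (x := K0) (ε := 1 / 8))
    ⟨K0, Metric.mem_ball_self (by norm_num)⟩ (hM.mono ?_)
  intro K hK
  rw [Metric.mem_ball, dist_comm, Metric.NonemptyCompacts.dist_eq] at hK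
  have hfin : Metric.hausdorffEDist (K0 : Set (Set.Icc (0 : ℝ) 1)) K ≠ ⊤ :=
    Metric.hausdorffEDist_ne_top_of_nonempty_of_bounded K0.nonempty K.nonempty
      K0.isCompact.isBounded K.isCompact.isBounded
  obtain ⟨x, hx, hxp⟩ := Metric.exists_dist_lt_of_hausdorffDist_lt
    (show p ∈ (K0 : Set (Set.Icc (0 : ℝ) 1)) from Or.inl rfl) hK hfin
  obtain ⟨y, hy, hyq⟩ := Metric.exists_dist_lt_of_hausdorffDist_lt
    (show q ∈ (K0 : Set (Set.Icc (0 : ℝ) 1)) from Or.inr rfl) hK hfin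
  rw [Subtype.dist_eq, Real.dist_eq, abs_lt] at hxp hyq
  simp only [p, q] at hxp hyq
  set A : Set ℝ := Subtype.val '' (K : Set (Set.Icc (0 : ℝ) 1)) with hAdef
  have hA : A ⊆ Set.Icc 0 1 := by
    rintro _ ⟨z, _, rfl⟩
    exact z.2
  have hxA : (x : ℝ) ∈ A := ⟨x, hx, rfl⟩
  have hyA : (y : ℝ) ∈ A := ⟨y, hy, rfl⟩
  have hdim := dim_expSet hA hxA hyA (by linarith [hxp.1, hxp.2]) (by linarith [hxp.1, hyq.2])
  have hne : (expSet A).Nonempty :=
    ⟨_, fun i => (x : ℝ) ^ i, fun i => Set.pow_mem_pow hxA,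
      (summable_of_mem hA (fun i => Set.pow_mem_pow hxA)).hasSum⟩
  have hcpt : IsCompact (closure (expSet A)) :=
    ((Metric.isBounded_Icc _ _).subset (expSet_subset hA)).isCompact_closure
  refine ⟨⟨⟨closure (expSet A), hcpt⟩, hne.closure⟩, ?_, ?_⟩
  · have := tendsto_expSet hA ⟨_, hxA⟩
    refine this.congr (fun n => ?_)
    exact Metric.hausdorffEDist_closure_right.symm
  · refine lt_of_lt_of_le ?_ (le_trans hdim (dimH_mono subset_closure))
    exact_mod_cast (by norm_num : (0 : ℝ≥0) < 1 / 40)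

end Pool.Agent.Results.MP_098a03_an.ExpDimPos
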